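import Pool.Agent.FS.BottSamelson.Exch

set_option autoImplicit false

namespace FS8e5b3d

open Pool.Agent.Lib.MP_8e5b3d_co LaurentPolynomial

variable {B W : Type} [Group W] {M : CoxeterMatrix B} (cs : CoxeterSystem M W)

theorem cross_up (u : W) (s r : B) (h1 : cs.length u < cs.length (cs.simple s * u))
    (h3 : cs.length (cs.simple s * (u * cs.simple r)) < cs.length (u * cs.simple r)) 
    (h2 : cs.length u < cs.length (u * cs.simple r)) :
    cs.simple s * u = u * cs.simple r := by
  obtain ⟨ω, hω, rfl⟩ := cs.exists_isReduced u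
  have e : cs.wordProd (ω ++ [r]) = cs.wordProd ω * cs.simple r := by
    rw [cs.wordProd_append, cs.wordProd_singleton]
  obtain ⟨a, x, b, h4, h5⟩ := strong_exchange cs (ω := ω ++ [r]) (cs.isReflection_simple s)
    (by rw [e]; exact h3)
  rw [e] at h5
  rcases List.eq_nil_or_concat' b with rfl | ⟨b', y, rfl⟩
  · obtain ⟨rfl, -⟩ := List.append_inj' h4 rfl
    rw [List.append_nil, ← mul_assoc] at h5
    have := congrArg (· * cs.simple r) h5
    simpa only [cs.simple_mul_simple_cancel_right] using this
  · exfalso
    have h6 : ω ++ [r] = (a ++ x :: b') ++ [y] := by rw [h4]; simp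
    obtain ⟨rfl, h7⟩ := List.append_inj' h6 rfl
    obtain rfl : r = y := by simpa using h7
    rw [← List.append_assoc, cs.wordProd_append (a ++ b'), cs.wordProd_singleton,
      ← mul_assoc] at h5
    have h8 := mul_right_cancel h5
    have a1 := cs.length_wordProd_le (a ++ b')
    have a2 := hω.eq
    rw [h8, a2] at h1
    simp only [List.length_append, List.length_cons] at a1 h1
    omega

theorem cross (u : W) (s r : B)
    (h1 : cs.length (cs.simple s * (u * cs.simple r)) = cs.length u)
    (h2 : cs.length (cs.simple s * u) = cs.length (u * cs.simple r)) :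
    cs.simple s * u = u * cs.simple r := by
  rcases cs.length_simple_mul u s with h | h
  · exact cross_up cs u s r (by omega) (by omega) (by omega)
  · have := cross_up cs (cs.simple s * u) s r
      (by rw [cs.simple_mul_simple_cancel_left]; omega)
      (by rw [mul_assoc, cs.simple_mul_simple_cancel_left]; omega)
      (by rw [mul_assoc]; omega)
    rw [cs.simple_mul_simple_cancel_left] at this
    have h3 := congrArg (· * cs.simple r) this
    simp only [cs.simple_mul_simple_cancel_right] at h3
    exact h3.symm

section Ring

variable {R : Type} [CommRing R] (q : R)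

/-- The linear map `T_w ↦ T_{w⁻¹}`. -/
noncomputable def iv : (W →₀ R) ≃ₗ[R] (W →₀ R) := Finsupp.domLCongr (Equiv.inv W)

theorem iv_apply (h : W →₀ R) (u : W) : iv h u = h u⁻¹ := by
  simp [iv]

theorem iv_single (w : W) (a : R) : iv (Finsupp.single w a) = Finsupp.single w⁻¹ a := by
  simp [iv]

/-- Right multiplication by `T_r`. -/
noncomputable def rho (r : B) : Module.End R (W →₀ R) :=
  (iv (W := W) (R := R)).toLinearMap * mulT cs q r * (iv (W := W) (R := R)).toLinearMap

theorem rho_eq (r : B) (h : W →₀ R) : rho cs q r h = iv (mulT cs q r (iv h)) := rfl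

theorem len_inv (r : B) (u : W) : cs.length (cs.simple r * u⁻¹) = cs.length (u * cs.simple r) := by
  rw [← cs.length_inv, mul_inv_rev, inv_inv, cs.inv_simple]

theorem rho_apply (r : B) (h : W →₀ R) (u : W) :
    rho cs q r h u =
      if cs.length u < cs.length (u * cs.simple r) then q * h (u * cs.simple r)
      else h (u * cs.simple r) + (q - 1) * h u := by
  rw [rho_eq, iv_apply, mulT_apply, iv_apply, iv_apply, len_inv, cs.length_inv, mul_inv_rev,
    inv_inv, cs.inv_simple]

theorem rho_single (r : B) (w : W) (h : cs.length w < cs.length (w * cs.simple r)) :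
    rho cs q r (Finsupp.single w 1) = Finsupp.single (w * cs.simple r) 1 := by
  rw [rho_eq, iv_single, mulT_single, if_pos (by rw [len_inv, cs.length_inv]; exact h), iv_single,
    mul_inv_rev, inv_inv, cs.inv_simple]

theorem commute_rho (s r : B) : Commute (mulT cs q s) (rho cs q r) := by
  refine LinearMap.ext fun h => Finsupp.ext fun u => ?_
  simp only [Module.End.mul_apply, mulT_apply, rho_apply, mul_assoc]
  have a1 := cs.length_simple_mul u s
  have a2 := cs.length_mul_simple u r
  have a3 := cs.length_simple_mul (u * cs.simple r) s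
  have a4 := cs.length_mul_simple (cs.simple s * u) r
  rw [mul_assoc] at a4
  have key := cross cs u s r
  split_ifs <;> first
    | omega
    | ring1
    | (rw [key (by omega) (by omega)])

theorem commute_opw_rho (ω : List B) (r : B) : Commute (opw cs q ω) (rho cs q r) :=
  Commute.list_prod_left _ _ fun y hy => by
    obtain ⟨t, _, rfl⟩ := List.mem_map.mp hy
    exact commute_rho cs q t r

theorem op_ext {A A' : Module.End R (W →₀ R)} (h1 : ∀ r, Commute A (rho cs q r))
    (h2 : ∀ r, Commute A' (rho cs q r))
    (h : A (Finsupp.single 1 1) = A' (Finsupp.single 1 1)) : A = A' := by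
  have key : ∀ n, ∀ x : W, cs.length x = n → A (Finsupp.single x 1) = A' (Finsupp.single x 1) := by
    intro n
    induction n with
    | zero =>
      intro x hx
      rw [cs.length_eq_zero_iff.mp hx]
      exact h
    | succ n ih =>
      intro x hx
      obtain ⟨r, hr⟩ := cs.exists_rightDescent_of_ne_one (w := x) (by rintro rfl; simp at hx)
      have hr' : cs.length (x * cs.simple r) < cs.length x := hr
      have a2 := cs.length_mul_simple x r
      have e := rho_single cs q r (x * cs.simple r)
        (by rw [cs.simple_mul_simple_cancel_right]; exact hr')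
      rw [cs.simple_mul_simple_cancel_right] at e
      rw [← e, ← Module.End.mul_apply, ← Module.End.mul_apply, (h1 r).eq, (h2 r).eq,
        Module.End.mul_apply, Module.End.mul_apply, ih _ (by omega)]
  refine Finsupp.lhom_ext fun x a => ?_
  have : Finsupp.single x a = a • Finsupp.single x (1 : R) := by simp
  rw [this, map_smul, map_smul, key _ x rfl]

theorem opw_eq {ω η : List B} (h1 : cs.IsReduced ω) (h2 : cs.IsReduced η)
    (h : cs.wordProd ω = cs.wordProd η) : opw cs q ω = opw cs q η :=
  op_ext cs q (commute_opw_rho cs q ω) (commute_opw_rho cs q η)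
    (by rw [opw_one_of_reduced cs q h1, opw_one_of_reduced cs q h2, h])

end Ring

theorem mulTinv_mul (s : B) : mulTinv cs s * mulT cs (T 2) s = 1 := by
  have h2 := T_neg_mul_two
  unfold mulTinv
  rw [add_mul, smul_mul_assoc, smul_mul_assoc, mulT_sq, one_mul, smul_add, smul_smul, smul_smul,
    h2, mul_sub, h2, one_smul]
  module

theorem mul_mulTinv (s : B) : mulT cs (T 2) s * mulTinv cs s = 1 := by
  have h2 := T_neg_mul_two
  unfold mulTinv
  rw [mul_add, mul_smul_comm, mul_smul_comm, mulT_sq, mul_one, smul_add, smul_smul, smul_smul,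
    h2, mul_sub, h2, one_smul]
  module

theorem opi_mul (ω : List B) : opi cs ω * opw cs (T 2) ω.reverse = 1 := by
  induction ω with
  | nil => simp
  | cons s ω ih =>
    rw [opi_cons, List.reverse_cons, opw_append, opw_cons, opw_nil, mul_one, mul_assoc,
      ← mul_assoc (opi cs ω), ih, one_mul, mulTinv_mul]

theorem mul_opi (ω : List B) : opw cs (T 2) ω.reverse * opi cs ω = 1 := by
  induction ω with
  | nil => simp
  | cons s ω ih =>
    rw [opi_cons, List.reverse_cons, opw_append, opw_cons, opw_nil, mul_one, mul_assoc,
      ← mul_assoc (mulT cs (T 2) s), mul_mulTinv, one_mul, ih]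

theorem opi_eq {ω η : List B} (h1 : cs.IsReduced ω) (h2 : cs.IsReduced η)
    (h : cs.wordProd ω = cs.wordProd η) : opi cs ω = opi cs η := by
  have e := opw_eq cs (T 2 : ℤ[T;T⁻¹]) h1.reverse h2.reverse
    (by rw [cs.wordProd_reverse, cs.wordProd_reverse, h])
  calc opi cs ω = opi cs ω * (opw cs (T 2) η.reverse * opi cs η) := by rw [mul_opi, mul_one]
    _ = opi cs η := by rw [← e, ← mul_assoc, opi_mul, one_mul]

theorem barT_of_reduced {ω : List B} (h : cs.IsReduced ω) :
    barT cs (cs.wordProd ω) = opi cs ω (Finsupp.single 1 1) := by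
  obtain ⟨h1, h2⟩ := (cs.exists_isReduced (cs.wordProd ω)).choose_spec
  rw [barT_eq, opi_eq cs h1 h h2.symm]

theorem barT_up (s : B) (u : W) (h : cs.length u < cs.length (cs.simple s * u)) :
    barT cs (cs.simple s * u) = mulTinv cs s (barT cs u) := by
  obtain ⟨ω, hω, rfl⟩ := cs.exists_isReduced u
  have h1 : cs.IsReduced (s :: ω) := by
    unfold CoxeterSystem.IsReduced
    have := cs.length_simple_mul (cs.wordProd ω) s
    have := hω.eq
    rw [cs.wordProd_cons, List.length_cons]
    omega
  rw [← cs.wordProd_cons, barT_of_reduced cs h1, barT_of_reduced cs hω, opi_cons,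
    Module.End.mul_apply]

theorem bar_mulT (s : B) (h : W →₀ ℤ[T;T⁻¹]) :
    bar cs (mulT cs (T 2) s h) = mulTinv cs s (bar cs h) := by
  induction h using Finsupp.induction_linear with
  | zero => simp
  | add f g hf hg => rw [map_add, bar_add, bar_add, hf, hg, map_add]
  | single u a =>
    rw [mulT_single, bar_single, map_smul]
    split_ifs with h1
    · rw [bar_single, barT_up cs s u h1]
    · have h2 := cs.length_simple_mul_ne u s
      have h3 := barT_up cs s (cs.simple s * u)
        (by rw [cs.simple_mul_simple_cancel_left]; omega)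
      rw [cs.simple_mul_simple_cancel_left] at h3
      rw [bar_add, bar_smul, bar_smul, bar_single, bar_single, h3, mulTinv_sq, map_sub, invert_T,
        map_one, smul_add, smul_comm (invert a), smul_comm (invert a)]

theorem bi_gen (s : B) : BI cs (1 + mulT cs (T 2) s) 1 := by
  intro h
  rw [LinearMap.add_apply, LinearMap.add_apply, Module.End.one_apply, Module.End.one_apply,
    bar_add, bar_mulT cs]
  simp only [mulTinv, LinearMap.add_apply, LinearMap.smul_apply, Module.End.one_apply]
  have : (-2 * ((1 : ℕ) : ℤ)) = -2 := by norm_num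
  rw [this]
  module

theorem bar_one : bar cs (Finsupp.single 1 1) = Finsupp.single 1 1 := by
  have := barT_of_reduced cs (ω := []) (by simp [CoxeterSystem.IsReduced])
  rw [cs.wordProd_nil] at this
  rw [bar_single, this]
  simp

end FS8e5b3d
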