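import Pool.Agent.Lib.MP_8e5b3d_co.Bar

set_option autoImplicit false

namespace FS8e5b3d

open Pool.Agent.Lib.MP_8e5b3d_co

variable {B W : Type} [Group W] {M : CoxeterMatrix B} (cs : CoxeterSystem M W)

open Classical in
/-- The signed action of a simple reflection on (group element, sign). -/
noncomputable def sg (i : B) : Function.End (W × ZMod 2) :=
  fun p => (cs.simple i * p.1 * cs.simple i, p.2 + if p.1 = cs.simple i then 1 else 0)

open Classical in
theorem sg_apply (i : B) (t : W) (e : ZMod 2) :
    sg cs i (t, e) = (cs.simple i * t * cs.simple i, e + if t = cs.simple i then 1 else 0) := rfl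

theorem inv_pow_mul (i j : B) (k : ℕ) :
    ((cs.simple i * cs.simple j) ^ k)⁻¹ * cs.simple j =
      cs.simple j * (cs.simple i * cs.simple j) ^ k := by
  have h1 : (cs.simple i * cs.simple j)⁻¹ =
      cs.simple j * (cs.simple i * cs.simple j) * (cs.simple j)⁻¹ := by
    rw [mul_inv_rev, cs.inv_simple, cs.inv_simple, mul_assoc, mul_assoc,
      cs.simple_mul_simple_self, mul_one]
  rw [← inv_pow, h1, conj_pow, inv_mul_cancel_right]

open Classical in
theorem sg_pow (i j : B) (k : ℕ) (t : W) (e : ZMod 2) :
    ((sg cs i * sg cs j) ^ k) (t, e) =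
      ((cs.simple i * cs.simple j) ^ k * t * ((cs.simple i * cs.simple j) ^ k)⁻¹,
        e + ∑ n ∈ Finset.range (2 * k),
          if t = cs.simple j * (cs.simple i * cs.simple j) ^ n then 1 else 0) := by
  induction k with
  | zero => simp; rfl
  | succ k ih =>
    rw [pow_succ']
    change sg cs i (sg cs j (((sg cs i * sg cs j) ^ k) (t, e))) = _
    rw [ih, sg_apply, sg_apply]
    have h := inv_pow_mul cs i j k
    have hb := cs.simple_mul_simple_self j
    have ha := cs.inv_simple i
    have hb' := cs.inv_simple j
    have e2 : (cs.simple i * cs.simple j) ^ (2 * k) =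
        (cs.simple i * cs.simple j) ^ k * (cs.simple i * cs.simple j) ^ k := by
      rw [two_mul, pow_add]
    have e3 : (cs.simple i * cs.simple j) ^ (2 * k + 1) =
        (cs.simple i * cs.simple j) ^ k * (cs.simple i * cs.simple j) *
          (cs.simple i * cs.simple j) ^ k := by
      rw [← pow_succ, ← pow_add]; congr 1; ring
    rw [show 2 * (k + 1) = 2 * k + 1 + 1 by ring, Finset.sum_range_succ, Finset.sum_range_succ,
      e2, e3, pow_succ' (cs.simple i * cs.simple j) k]
    generalize (cs.simple i * cs.simple j) ^ k = G at h ⊢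
    generalize cs.simple i = a at *
    generalize cs.simple j = b at *
    have c1 : (G * t * G⁻¹ = b) ↔ t = b * (G * G) := by
      rw [← mul_assoc, ← h]
      constructor
      · intro h1; rw [← h1]; group
      · intro h1; rw [h1]; group
    have c2 : (b * (G * t * G⁻¹) * b = a) ↔ t = b * (G * (a * b) * G) := by
      have : b * (G * (a * b) * G) = G⁻¹ * (b⁻¹ * a * b⁻¹) * G := by
        rw [hb', ← mul_assoc, ← mul_assoc, ← h]; group
      rw [this]
      constructor
      · intro h1; rw [← h1]; group
      · intro h1; rw [h1]; group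
    simp only [c1, c2]
    refine Prod.ext ?_ ?_
    · simp only [mul_inv_rev, ha, hb', mul_assoc]
    · simp only [add_assoc]

theorem sg_liftable : M.IsLiftable (sg cs) := by
  classical
  intro i j
  funext p
  obtain ⟨t, e⟩ := p
  rw [sg_pow, two_mul, Finset.sum_range_add]
  simp only [pow_add, cs.simple_mul_simple_pow, one_mul, inv_one, mul_one]
  rw [← two_mul, show (2 : ZMod 2) = 0 from rfl, zero_mul, add_zero]
  rfl

/-- The action of the whole group. -/
noncomputable def act : W →* Function.End (W × ZMod 2) := cs.lift ⟨sg cs, sg_liftable cs⟩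

/-- The inversion cocycle. -/
noncomputable def eta (w t : W) : ZMod 2 := (act cs w (t, 0)).2

theorem act_simple (i : B) : act cs (cs.simple i) = sg cs i := by
  simp [act]

theorem act_apply (w t : W) (e : ZMod 2) : act cs w (t, e) = (w * t * w⁻¹, e + eta cs w t) := by
  unfold eta
  induction w using cs.simple_induction_left generalizing e with
  | one =>
    rw [map_one]
    change (t, e) = (_, e + 0)
    simp
  | mul_simple_left w i ih =>
    rw [map_mul, act_simple]
    change sg cs i (act cs w (t, e)) = (_, e + (sg cs i (act cs w (t, 0))).2)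
    rw [ih e, ih 0, sg_apply, sg_apply]
    refine Prod.ext ?_ ?_
    · simp only [mul_inv_rev, cs.inv_simple, mul_assoc]
    · simp only [zero_add, add_assoc]

theorem eta_mul (x y t : W) : eta cs (x * y) t = eta cs y t + eta cs x (y * t * y⁻¹) := by
  have h : act cs (x * y) (t, 0) = act cs x (act cs y (t, 0)) := by rw [map_mul]; rfl
  rw [act_apply cs y, act_apply cs x] at h
  have := congrArg Prod.snd h
  simpa [eta] using this

theorem eta_one (t : W) : eta cs 1 t = 0 := by
  unfold eta
  rw [map_one]
  rfl

open Classical in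
theorem eta_simple (i : B) (t : W) :
    eta cs (cs.simple i) t = if t = cs.simple i then 1 else 0 := by
  unfold eta
  rw [act_simple, sg_apply, zero_add]

theorem eta_self {t : W} (ht : cs.IsReflection t) : eta cs t t = 1 := by
  obtain ⟨g, s, hg⟩ := ht
  have e1 : g⁻¹ * t * g⁻¹⁻¹ = cs.simple s := by rw [hg]; group
  have h0 := eta_mul cs g g⁻¹ t
  rw [mul_inv_cancel, eta_one, e1] at h0
  have h1 := eta_mul cs (g * cs.simple s) g⁻¹ t
  rw [← hg, e1, eta_mul, eta_simple, if_pos rfl, mul_inv_cancel_right] at h1
  rw [h1]
  linear_combination -h0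

theorem exch_of_eta (ω : List B) (t : W) (h : eta cs (cs.wordProd ω)⁻¹ t ≠ 0) :
    ∃ a r b, ω = a ++ r :: b ∧ t * cs.wordProd ω = cs.wordProd (a ++ b) := by
  induction ω generalizing t with
  | nil => simp [eta_one] at h
  | cons s ω ih =>
    by_cases h1 : t = cs.simple s
    · exact ⟨[], s, ω, rfl, by
        rw [h1, cs.wordProd_cons, cs.simple_mul_simple_cancel_left, List.nil_append]⟩
    · rw [cs.wordProd_cons, mul_inv_rev, cs.inv_simple, eta_mul, eta_simple, if_neg h1,
        zero_add] at h
      obtain ⟨a, r, b, h2, h3⟩ := ih _ h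
      refine ⟨s :: a, r, b, by rw [h2]; rfl, ?_⟩
      rw [List.cons_append, cs.wordProd_cons, cs.wordProd_cons, ← h3, cs.inv_simple, mul_assoc,
        mul_assoc, cs.simple_mul_simple_cancel_left]

/-- The strong exchange condition in an arbitrary Coxeter system. -/
theorem strong_exchange {ω : List B} {t : W}
    (ht : cs.IsReflection t) (hl : cs.length (t * cs.wordProd ω) < cs.length (cs.wordProd ω)) :
    ∃ a r b, ω = a ++ r :: b ∧ t * cs.wordProd ω = cs.wordProd (a ++ b) := by
  refine exch_of_eta cs ω t fun h0 => ?_
  obtain ⟨η, h2, h3⟩ := cs.exists_isReduced (t * cs.wordProd ω)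
  have h4 : eta cs (cs.wordProd η)⁻¹ t ≠ 0 := by
    rw [← h3, mul_inv_rev, ht.inv, eta_mul, eta_self cs ht, mul_inv_cancel_right, h0]
    decide
  obtain ⟨a, r, b, h5, h6⟩ := exch_of_eta cs η t h4
  rw [← h3, ← mul_assoc, ht.mul_self, one_mul] at h6
  have a1 := cs.length_wordProd_le (a ++ b)
  have a2 := h2.eq
  rw [← h6] at a1
  rw [h3, a2, h5] at hl
  simp only [List.length_append, List.length_cons] at a1 hl
  omega

theorem lift_edge (s : B) {x t : W} (ht : cs.IsReflection t)
    (hl : cs.length x < cs.length (t * x)) :
    BruhatLE cs (cs.simple s * x) (t * x) ∨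
      BruhatLE cs (cs.simple s * x) (cs.simple s * (t * x)) := by
  have ht' := ht.conj (cs.simple s)
  have e : cs.simple s * t * (cs.simple s)⁻¹ * (cs.simple s * x) = cs.simple s * (t * x) := by
    group
  by_cases h1 : cs.length (cs.simple s * x) < cs.length (cs.simple s * (t * x))
  · exact Or.inr (Relation.ReflTransGen.single ⟨_, ht', e.symm, h1⟩)
  left
  rcases cs.length_simple_mul x s with h2 | h2
  · have h3 := ht'.length_mul_right_ne (cs.simple s * x)
    rw [e] at h3
    obtain ⟨ω, hω, rfl⟩ := cs.exists_isReduced x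
    obtain ⟨a, r, b, h4, h5⟩ := strong_exchange cs (ω := s :: ω) ht'
      (by rw [cs.wordProd_cons, e]; omega)
    rw [cs.wordProd_cons, e] at h5
    cases a with
    | nil =>
      simp only [List.nil_append, List.cons.injEq] at h4 h5
      obtain ⟨rfl, rfl⟩ := h4
      have : t * cs.wordProd ω = cs.simple s * cs.wordProd ω := by
        rw [← cs.simple_mul_simple_cancel_left (w := t * cs.wordProd ω) s, h5]
      rw [this]
      exact Relation.ReflTransGen.refl
    | cons c a =>
      exfalso
      simp only [List.cons_append, List.cons.injEq] at h4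
      obtain ⟨rfl, rfl⟩ := h4
      rw [List.cons_append, cs.wordProd_cons] at h5
      have h6 := mul_left_cancel h5
      have a1 := cs.length_wordProd_le (a ++ b)
      have a2 := hω.eq
      rw [h6, a2] at hl
      simp only [List.length_append, List.length_cons] at a1 hl
      omega
  · have h3 : BruhatLE cs (cs.simple s * x) x := by
      have := bruhat_simple cs (x := cs.simple s * x) (s := s)
        (by rw [cs.simple_mul_simple_cancel_left]; omega)
      rwa [cs.simple_mul_simple_cancel_left] at this
    exact Relation.ReflTransGen.tail h3 ⟨t, ht, rfl, hl⟩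

theorem lift_le (s : B) {x y : W} (h : BruhatLE cs x y) :
    BruhatLE cs (cs.simple s * x) y ∨ BruhatLE cs (cs.simple s * x) (cs.simple s * y) := by
  induction h with
  | refl => exact Or.inr Relation.ReflTransGen.refl
  | tail _ hbc ih =>
    obtain ⟨t, ht, rfl, hl⟩ := hbc
    rcases ih with ih | ih
    · exact Or.inl (Relation.ReflTransGen.tail ih ⟨t, ht, rfl, hl⟩)
    · rcases lift_edge cs s ht hl with h | h
      · exact Or.inl (Relation.ReflTransGen.trans ih h)
      · exact Or.inr (Relation.ReflTransGen.trans ih h)

/-- The subword property, one direction, in an arbitrary Coxeter system. -/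
theorem bruhat_of_sublist {η ω : List B} (h : η.Sublist ω) (hω : cs.IsReduced ω) :
    BruhatLE cs (cs.wordProd η) (cs.wordProd ω) := by
  induction h with
  | slnil => exact Relation.ReflTransGen.refl
  | cons s _ ih =>
    obtain ⟨h1, h2⟩ := reduced_cons hω
    rw [cs.wordProd_cons]
    exact Relation.ReflTransGen.trans (ih h1) (bruhat_simple cs h2)
  | cons_cons s _ ih =>
    obtain ⟨h1, h2⟩ := reduced_cons hω
    rw [cs.wordProd_cons, cs.wordProd_cons]
    rcases lift_le cs s (ih h1) with h | h
    · exact Relation.ReflTransGen.trans h (bruhat_simple cs h2)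
    · exact h

end FS8e5b3d
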