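import Pool.Agent.FS.BottSamelson.BarGen

set_option autoImplicit false

namespace FS8e5b3d

open Pool.Agent.Lib.MP_8e5b3d_co

section Gen

variable {B W : Type} [Group W] {M : CoxeterMatrix B} (cs : CoxeterSystem M W)

theorem exists_reduced_sublist (ω : List B) :
    ∃ η, η.Sublist ω ∧ cs.IsReduced η ∧ cs.wordProd η = cs.wordProd ω := by
  induction ω with
  | nil => exact ⟨[], List.Sublist.refl _, by simp [CoxeterSystem.IsReduced], rfl⟩
  | cons s ω ih =>
    obtain ⟨η, h1, h2, h3⟩ := ih
    have a2 := h2.eq
    rcases cs.length_simple_mul (cs.wordProd η) s with h | h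
    · refine ⟨s :: η, h1.cons_cons s, ?_, by rw [cs.wordProd_cons, cs.wordProd_cons, h3]⟩
      unfold CoxeterSystem.IsReduced
      rw [cs.wordProd_cons, List.length_cons]
      omega
    · obtain ⟨a, r, b, h4, h5⟩ := strong_exchange cs (ω := η) (cs.isReflection_simple s) (by omega)
      refine ⟨a ++ b, ?_, ?_, by rw [cs.wordProd_cons, ← h3, h5]⟩
      · refine (List.Sublist.trans ?_ h1).cons s
        rw [h4]
        exact (List.sublist_cons_self r b).append_left a
      · unfold CoxeterSystem.IsReduced
        rw [← h5]
        have : η.length = (a ++ b).length + 1 := by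
          rw [h4]; simp only [List.length_append, List.length_cons]; omega
        omega

theorem sublist_of_bruhat {u x : W} (h : BruhatLE cs u x) (ω : List B) (hω : cs.wordProd ω = x) :
    ∃ η, η.Sublist ω ∧ cs.wordProd η = u := by
  induction h generalizing ω with
  | refl => exact ⟨ω, List.Sublist.refl _, hω⟩
  | @tail y z _ hbc ih =>
    obtain ⟨t, ht, rfl, hl⟩ := hbc
    have e : t * cs.wordProd ω = y := by rw [hω, ← mul_assoc, ht.mul_self, one_mul]
    obtain ⟨a, r, b, h4, h5⟩ := strong_exchange cs (ω := ω) ht (by rw [e, hω]; exact hl)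
    obtain ⟨η, h6, h7⟩ := ih (a ++ b) (by rw [← h5, e])
    refine ⟨η, h6.trans ?_, h7⟩
    rw [h4]
    exact (List.sublist_cons_self r b).append_left a

theorem length_map_le {B' W' : Type} [Group W'] {M' : CoxeterMatrix B'} (cs' : CoxeterSystem M' W')
    (f : W →* W') (hf : ∀ i, cs'.length (f (cs.simple i)) ≤ 1) (w : W) :
    cs'.length (f w) ≤ cs.length w := by
  obtain ⟨ω, hω, rfl⟩ := cs.exists_isReduced w
  rw [hω.eq]
  clear hω
  induction ω with
  | nil => simp
  | cons s ω ih =>
    rw [cs.wordProd_cons, map_mul, List.length_cons]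
    have := cs'.length_mul_le (f (cs.simple s)) (f (cs.wordProd ω))
    have := hf s
    omega

theorem simple_ne_one (i : B) : cs.simple i ≠ 1 := fun h => by
  have := cs.length_simple i
  rw [h, cs.length_one] at this
  omega

end Gen

open Classical in
/-- Entries of the free extension. -/
noncomputable def ent {B : Type} (M : CoxeterMatrix B) (K : Type) (x y : B ⊕ K) : ℕ :=
  Sum.elim (fun a => Sum.elim (fun b => M a b) (fun _ => 0) y)
    (fun a => Sum.elim (fun _ => 0) (fun b => if a = b then 1 else 0) y) x

/-- The free product of the Coxeter matrix with copies of the group of order two. -/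
noncomputable def ext {B : Type} (M : CoxeterMatrix B) (K : Type) : CoxeterMatrix (B ⊕ K) where
  M := Matrix.of (ent M K)
  isSymm := by
    refine Matrix.IsSymm.ext fun x y => ?_
    rcases x with a | a <;> rcases y with b | b
    · exact M.symmetric b a
    · rfl
    · rfl
    · by_cases h : a = b
      · rw [h]
      · simp [ent, h, Ne.symm h]
  diagonal := by
    rintro (a | a) <;> simp [ent]
  off_diagonal := by
    rintro (a | a) (b | b) h <;> simp [ent]
    · exact M.off_diagonal a b fun e => h (by rw [e])
    · exact fun e => h (by rw [e])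

variable {B K W W' : Type} [Group W] [Group W'] {M : CoxeterMatrix B}
  (cs : CoxeterSystem M W) (cs' : CoxeterSystem (ext M K) W')

theorem ext_ll (a b : B) : ext M K (.inl a) (.inl b) = M a b := rfl

theorem ext_ne (m : K) (y : B ⊕ K) (h : y ≠ .inr m) : ext M K (.inr m) y = 0 := by
  rcases y with b | b
  · rfl
  · have : m ≠ b := fun e => h (by rw [e])
    change ent M K (.inr m) (.inr b) = 0
    simp [ent, this]

theorem ext_ne' (m : K) (y : B ⊕ K) (h : y ≠ .inr m) : ext M K y (.inr m) = 0 := by
  rw [(ext M K).symmetric, ext_ne m y h]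

/-- The inclusion. -/
noncomputable def inc : W →* W' :=
  cs.lift ⟨fun i => cs'.simple (.inl i), fun i j => cs'.simple_mul_simple_pow (.inl i) (.inl j)⟩

theorem inc_simple (i : B) : inc cs cs' (cs.simple i) = cs'.simple (.inl i) := by simp [inc]

/-- The retraction. -/
noncomputable def ret : W' →* W :=
  cs'.lift ⟨Sum.elim cs.simple fun _ => 1, by
    rintro (a | a) (b | b)
    · exact cs.simple_mul_simple_pow a b
    · rw [ext_ne' b (.inl a) (by simp), pow_zero]
    · rw [ext_ne a (.inl b) (by simp), pow_zero]
    · simp⟩

theorem ret_simple (x : B ⊕ K) : ret cs cs' (cs'.simple x) = Sum.elim cs.simple (fun _ => 1) x := by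
  simp [ret]

theorem inc_wordProd (ω : List B) :
    inc cs cs' (cs.wordProd ω) = cs'.wordProd (ω.map .inl) := by
  induction ω with
  | nil => simp
  | cons s ω ih => rw [cs.wordProd_cons, map_mul, inc_simple, ih, List.map_cons, cs'.wordProd_cons]

theorem ret_inc (u : W) : ret cs cs' (inc cs cs' u) = u := by
  induction u using cs.simple_induction_left with
  | one => simp
  | mul_simple_left w i ih => rw [map_mul, map_mul, ih, inc_simple, ret_simple]; rfl

theorem len_inc (u : W) : cs'.length (inc cs cs' u) = cs.length u := by
  refine le_antisymm (length_map_le cs cs' _ (fun i => by rw [inc_simple]; simp) u) ?_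
  have := length_map_le cs' cs (ret cs cs') (by
    rintro (a | a) <;> rw [ret_simple] <;> simp) (inc cs cs' u)
  rwa [ret_inc] at this

theorem reduced_map {ω : List B} (h : cs.IsReduced ω) : cs'.IsReduced (ω.map .inl) := by
  unfold CoxeterSystem.IsReduced
  rw [← inc_wordProd cs cs', len_inc, List.length_map]
  exact h

open Classical in
/-- Killing one new generator. -/
noncomputable def kill (m : K) : W' →* W' :=
  cs'.lift ⟨fun x => if x = .inr m then 1 else cs'.simple x, by
    intro x y
    by_cases hx : x = .inr m
    · by_cases hy : y = .inr m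
      · simp [hx, hy]
      · rw [hx, ext_ne m y hy, pow_zero]
    · by_cases hy : y = .inr m
      · rw [hy, ext_ne' m x hx, pow_zero]
      · simp only [if_neg hx, if_neg hy]
        exact cs'.simple_mul_simple_pow x y⟩

theorem kill_self (m : K) : kill cs' m (cs'.simple (.inr m)) = 1 := by simp [kill]

theorem kill_ne (m : K) {x : B ⊕ K} (h : x ≠ .inr m) : kill cs' m (cs'.simple x) = cs'.simple x := by
  simp [kill, h]

theorem kill_wordProd (m : K) {η : List (B ⊕ K)} (h : .inr m ∉ η) :
    kill cs' m (cs'.wordProd η) = cs'.wordProd η := by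
  induction η with
  | nil => simp
  | cons s η ih =>
    rw [List.mem_cons, not_or] at h
    rw [cs'.wordProd_cons, map_mul, ih h.2, kill_ne cs' m (Ne.symm h.1)]

theorem fresh (m : K) {η : List (B ⊕ K)} (h : .inr m ∉ η) :
    cs'.length (cs'.simple (.inr m) * cs'.wordProd η) = cs'.length (cs'.wordProd η) + 1 := by
  have h1 := length_map_le cs' cs' (kill cs' m) (fun x => by
    by_cases hx : x = .inr m
    · rw [hx, kill_self]; simp
    · rw [kill_ne cs' m hx]; simp) (cs'.simple (.inr m) * cs'.wordProd η)
  rw [map_mul, kill_self, one_mul, kill_wordProd cs' m h] at h1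
  have := cs'.length_simple_mul (cs'.wordProd η) (.inr m)
  omega

open Classical in
/-- A map to the symmetric group on three letters. -/
noncomputable def phi (m : K) : W' →* Equiv.Perm (Fin 3) :=
  cs'.lift ⟨fun x => if x = .inr m then Equiv.swap 0 1 else Equiv.swap 1 2, by
    intro x y
    by_cases hx : x = .inr m
    · by_cases hy : y = .inr m
      · simp [hx, hy]
      · rw [hx, ext_ne m y hy, pow_zero]
    · by_cases hy : y = .inr m
      · rw [hy, ext_ne' m x hx, pow_zero]
      · simp [hx, hy]⟩

theorem phi_self (m : K) : phi cs' m (cs'.simple (.inr m)) = Equiv.swap 0 1 := by simp [phi]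

theorem phi_inl (m : K) (a : B) : phi cs' m (cs'.simple (.inl a)) = Equiv.swap 1 2 := by simp [phi]

theorem phi_comm (m : K) (ω : List B) :
    Commute (Equiv.swap 1 2) (phi cs' m (cs'.wordProd (ω.map .inl))) := by
  induction ω with
  | nil => simp
  | cons s ω ih =>
    rw [List.map_cons, cs'.wordProd_cons, map_mul, phi_inl]
    exact (Commute.refl _).mul_right ih

/-- Elements that begin with a new generator which does not occur again. -/
def Lead (v : W') : Prop :=
  ∃ (m : K) (η : List (B ⊕ K)), .inr m ∉ η ∧ v = cs'.simple (.inr m) * cs'.wordProd η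

theorem not_lead (u : W) : ¬ Lead cs' (inc cs cs' u) := by
  rintro ⟨m, η, h1, h2⟩
  obtain ⟨ω, -, rfl⟩ := cs.exists_isReduced u
  have h3 := congrArg (kill cs' m) h2
  rw [map_mul, kill_self, one_mul, kill_wordProd cs' m h1, inc_wordProd,
    kill_wordProd cs' m (by simp), ← inc_wordProd cs cs', h2] at h3
  exact simple_ne_one cs' _ (mul_eq_right.mp h3)

theorem reduced_lead {ω : List B} (hω : cs.IsReduced ω) (m : K) {η : List (B ⊕ K)}
    (h1 : .inr m ∉ η) (h2 : cs'.IsReduced η) : cs'.IsReduced (ω.map .inl ++ .inr m :: η) := by
  induction ω with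
  | nil =>
    unfold CoxeterSystem.IsReduced
    rw [List.map_nil, List.nil_append, cs'.wordProd_cons, fresh cs' m h1, h2.eq, List.length_cons]
  | cons s ω ih =>
    obtain ⟨h3, h4⟩ := reduced_cons hω
    have h5 := (ih h3).eq
    unfold CoxeterSystem.IsReduced
    rw [List.map_cons, List.cons_append, cs'.wordProd_cons, List.length_cons]
    rcases cs'.length_simple_mul (cs'.wordProd (ω.map .inl ++ .inr m :: η)) (.inl s) with h | h
    · omega
    exfalso
    obtain ⟨a, r, b, h6, h7⟩ := strong_exchange cs' (ω := ω.map .inl ++ .inr m :: η)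
      (cs'.isReflection_simple (.inl s)) (by omega)
    have hk : kill cs' m (cs'.wordProd (ω.map .inl)) = cs'.wordProd (ω.map .inl) :=
      kill_wordProd cs' m (by simp)
    have hs : kill cs' m (cs'.simple (.inl s)) = cs'.simple (.inl s) := kill_ne cs' m (by simp)
    rcases List.append_eq_append_iff.mp h6 with ⟨c, h8, h9⟩ | ⟨c, h8, h9⟩
    · cases c with
      | nil =>
        simp only [List.nil_append, List.cons.injEq, List.append_nil] at h8 h9
        obtain ⟨-, rfl⟩ := h9
        subst h8
        rw [cs'.wordProd_append, cs'.wordProd_append, cs'.wordProd_cons] at h7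
        have h10 := congrArg (kill cs' m) h7
        simp only [map_mul, hk, hs, kill_self, one_mul] at h10
        exact simple_ne_one cs' _ (mul_eq_right.mp h10)
      | cons y c =>
        simp only [List.cons_append, List.cons.injEq] at h9
        obtain ⟨rfl, rfl⟩ := h9
        subst h8
        have h11 : (.inr m : B ⊕ K) ∉ c ++ b := fun hm => h1 (by
          simp only [List.mem_append, List.mem_cons] at hm ⊢; tauto)
        rw [List.append_assoc, List.cons_append, cs'.wordProd_append, cs'.wordProd_append,
          cs'.wordProd_cons, cs'.wordProd_cons] at h7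
        have h10 := congrArg (kill cs' m) h7
        simp only [map_mul, hk, hs, kill_self, one_mul, kill_wordProd cs' m h1,
          kill_wordProd cs' m h11] at h10
        have h12 := phi_comm cs' m ω
        generalize cs'.wordProd (ω.map .inl) = g at *
        generalize cs'.wordProd (c ++ r :: b) = v at *
        generalize cs'.wordProd (c ++ b) = v' at *
        have h13 : v' = g⁻¹ * (cs'.simple (.inl s) * (g * v)) := by rw [h10]; group
        have h14 : cs'.simple (.inl s) * g * cs'.simple (.inr m) =
            g * cs'.simple (.inr m) * g⁻¹ * cs'.simple (.inl s) * g := by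
          apply mul_right_cancel (b := v)
          rw [h13] at h7
          simpa only [mul_assoc] using h7
        have h15 := congrArg (phi cs' m) h14
        simp only [map_mul, map_inv, phi_self, phi_inl] at h15
        generalize phi cs' m g = γ at *
        rw [h12.eq, mul_assoc _ _ γ, h12.eq, mul_assoc (γ * _), inv_mul_cancel_left, mul_assoc,
          mul_assoc] at h15
        have h16 := mul_left_cancel h15
        revert h16
        decide
    · cases c with
      | nil =>
        simp only [List.nil_append, List.cons.injEq, List.append_nil] at h8 h9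
        obtain ⟨-, rfl⟩ := h9
        subst h8
        rw [cs'.wordProd_append, cs'.wordProd_append, cs'.wordProd_cons] at h7
        have h10 := congrArg (kill cs' m) h7
        simp only [map_mul, hk, hs, kill_self, one_mul] at h10
        exact simple_ne_one cs' _ (mul_eq_right.mp h10)
      | cons y c =>
        simp only [List.cons_append, List.cons.injEq] at h9
        obtain ⟨rfl, rfl⟩ := h9
        rw [← List.append_assoc, cs'.wordProd_append, cs'.wordProd_append (a ++ c),
          ← mul_assoc] at h7
        have h10 := mul_right_cancel h7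
        have a1 := cs'.length_wordProd_le (a ++ c)
        have a2 := congrArg List.length h8
        rw [← h10, ← inc_wordProd cs cs', ← inc_simple cs cs', ← map_mul, len_inc] at a1
        have a3 := h3.eq
        simp only [List.length_append, List.length_cons, List.length_map] at a1 a2
        omega

theorem len_lead (u : W) {v : W'} (hv : Lead cs' v) :
    cs'.length (inc cs cs' u * v) = cs.length u + cs'.length v := by
  obtain ⟨m, η, h1, rfl⟩ := hv
  obtain ⟨ζ, h2, h3, h4⟩ := exists_reduced_sublist cs' η
  obtain ⟨ω, hω, rfl⟩ := cs.exists_isReduced u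
  have h5 : (.inr m : B ⊕ K) ∉ ζ := fun h => h1 (h2.subset h)
  have h6 := (reduced_lead cs cs' hω m h5 h3).eq
  rw [cs'.wordProd_append, cs'.wordProd_cons, ← inc_wordProd cs cs'] at h6
  rw [← h4, h6, fresh cs' m h5, h3.eq, hω.eq]
  simp

end FS8e5b3d
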