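import Pool.Agent.FS.BottSamelson.Host

set_option autoImplicit false

namespace FS8e5b3d

open Pool.Agent.Lib.MP_8e5b3d_co Polynomial

section Gen

variable {B W : Type} [Group W] {M : CoxeterMatrix B} {cs : CoxeterSystem M W}

section Supp

variable {R : Type} [CommRing R]

theorem supp_mono {h : W →₀ R} {η ζ : List B} (hh : SuppIn cs h η) (hs : η.Sublist ζ) :
    SuppIn cs h ζ := fun u hu => by
  obtain ⟨a, h1, h2⟩ := hh u hu
  exact ⟨a, h1.trans hs, h2⟩

theorem supp_add {h g : W →₀ R} {η : List B} (hh : SuppIn cs h η) (hg : SuppIn cs g η) :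
    SuppIn cs (h + g) η := fun u hu => by
  by_cases h1 : h u = 0
  · exact hg u fun h2 => hu (by rw [Finsupp.add_apply, h1, h2, add_zero])
  · exact hh u h1

theorem supp_sub {h g : W →₀ R} {η : List B} (hh : SuppIn cs h η) (hg : SuppIn cs g η) :
    SuppIn cs (h - g) η := fun u hu => by
  by_cases h1 : h u = 0
  · exact hg u fun h2 => hu (by rw [Finsupp.sub_apply, h1, h2, sub_zero])
  · exact hh u h1

theorem supp_single (η : List B) : SuppIn cs (Finsupp.single (cs.wordProd η) (1 : R)) η :=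
  fun u hu => ⟨η, List.Sublist.refl _, by
    by_contra hne
    exact hu (Finsupp.single_eq_of_ne (Ne.symm hne))⟩

theorem supp_mulT (q : R) (i : B) {h : W →₀ R} {η : List B} (hh : SuppIn cs h η) :
    SuppIn cs (mulT cs q i h) (i :: η) := by
  intro u hu
  rw [mulT_apply] at hu
  by_cases h1 : h (cs.simple i * u) = 0
  · by_cases h2 : h u = 0
    · rw [h1, h2] at hu
      simp at hu
    · obtain ⟨η, hη, he⟩ := hh _ h2
      exact ⟨η, hη.cons _, he⟩
  · obtain ⟨η, hη, he⟩ := hh _ h1
    refine ⟨i :: η, hη.cons_cons _, ?_⟩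
    rw [cs.wordProd_cons, he, cs.simple_mul_simple_cancel_left]

theorem supp_opw (q : R) (ω : List B) {h : W →₀ R} {η : List B} (hh : SuppIn cs h η) :
    SuppIn cs (opw cs q ω h) (ω ++ η) := by
  induction ω with
  | nil => simpa using hh
  | cons i ω ih =>
    rw [opw_cons, Module.End.mul_apply]
    exact supp_mulT q i ih

theorem mulT_up (q : R) (i : B) {g : W →₀ R}
    (hg : ∀ y, g y ≠ 0 → cs.length y < cs.length (cs.simple i * y)) (v : W) :
    mulT cs q i g v = g (cs.simple i * v) := by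
  rw [mulT_apply]
  split_ifs with h
  · have : g (cs.simple i * v) = 0 := by
      by_contra h0
      have := hg _ h0
      rw [cs.simple_mul_simple_cancel_left] at this
      omega
    rw [this, mul_zero]
  · have : g v = 0 := by
      by_contra h0
      exact h (hg _ h0)
    rw [this, mul_zero, add_zero]

theorem opw_shift (q : R) (ω : List B) {h : W →₀ R}
    (hh : ∀ u, h u ≠ 0 → cs.length (cs.wordProd ω * u) = ω.length + cs.length u) (v : W) :
    opw cs q ω h v = h ((cs.wordProd ω)⁻¹ * v) := by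
  induction ω generalizing v with
  | nil => simp
  | cons i ω ih =>
    have h1 : ∀ u, h u ≠ 0 → cs.length (cs.wordProd ω * u) = ω.length + cs.length u := by
      intro u hu
      have a1 := hh u hu
      rw [cs.wordProd_cons, mul_assoc, List.length_cons] at a1
      have a2 := cs.length_simple_mul (cs.wordProd ω * u) i
      have a3 := cs.length_mul_le (cs.wordProd ω) u
      have a4 := cs.length_wordProd_le ω
      omega
    rw [opw_cons, Module.End.mul_apply, mulT_up, ih h1, cs.wordProd_cons, mul_inv_rev,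
      cs.inv_simple, mul_assoc]
    intro y hy
    rw [ih h1] at hy
    have a1 := hh _ hy
    have a2 := h1 _ hy
    rw [cs.wordProd_cons, mul_assoc, List.length_cons, mul_inv_cancel_left] at a1
    rw [mul_inv_cancel_left] at a2
    omega

end Supp

variable (cs) in
/-- Weighted degree bound with slack `c`. -/
def Bc (h : W →₀ ℤ[X]) (c N : ℕ) : Prop :=
  ∀ u, h u ≠ 0 → 2 * (h u).natDegree + cs.length u + c ≤ N

theorem Bc.mono {h : W →₀ ℤ[X]} {c N c' N' : ℕ} (hh : Bc cs h c N) (hN : N + c' ≤ N' + c) :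
    Bc cs h c' N' := fun u hu => by
  have := hh u hu
  omega

theorem Bc.zero (c N : ℕ) : Bc cs 0 c N := fun u hu => by simp at hu

theorem Bc.add {h g : W →₀ ℤ[X]} {c N : ℕ} (hh : Bc cs h c N) (hg : Bc cs g c N) :
    Bc cs (h + g) c N := by
  intro u hu
  rw [Finsupp.add_apply] at hu ⊢
  by_cases h1 : h u = 0
  · rw [h1, zero_add] at hu ⊢
    exact hg u hu
  by_cases h2 : g u = 0
  · rw [h2, add_zero] at hu ⊢
    exact hh u hu
  have := natDegree_add_le (h u) (g u)
  have a1 := hh u h1
  have a2 := hg u h2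
  omega

theorem Bc.sub {h g : W →₀ ℤ[X]} {c N : ℕ} (hh : Bc cs h c N) (hg : Bc cs g c N) :
    Bc cs (h - g) c N := by
  rw [sub_eq_add_neg]
  refine hh.add fun u hu => ?_
  rw [Finsupp.neg_apply] at hu ⊢
  rw [natDegree_neg]
  exact hg u (neg_ne_zero.mp hu)

theorem Bc.sum {ι : Type} (s : Finset ι) (f : ι → W →₀ ℤ[X]) {c N : ℕ}
    (hf : ∀ x ∈ s, Bc cs (f x) c N) : Bc cs (∑ x ∈ s, f x) c N :=
  Finset.sum_induction f (fun h => Bc cs h c N) (fun _ _ => Bc.add) (Bc.zero c N) hf

theorem Bc.single (w : W) : Bc cs (Finsupp.single w 1) 0 (cs.length w) := bd_single w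

theorem Bc.smul {h : W →₀ ℤ[X]} {c N : ℕ} (hh : Bc cs h c N) (p : ℤ[X]) :
    Bc cs (p • h) c (N + 2 * p.natDegree) := by
  intro u hu
  rw [Finsupp.smul_apply, smul_eq_mul] at hu ⊢
  have := hh u (right_ne_zero_of_mul hu)
  have : (p * h u).natDegree ≤ p.natDegree + (h u).natDegree := natDegree_mul_le
  omega

theorem Bc.mulT {h : W →₀ ℤ[X]} {c N : ℕ} (hh : Bc cs h c N) (i : B) :
    Bc cs (mulT cs X i h) c (N + 2) := by
  by_cases h0 : h = 0
  · rw [h0, map_zero]; exact Bc.zero _ _
  obtain ⟨y, hy⟩ := Finsupp.ne_iff.mp h0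
  have a1 := hh y hy
  have h1 : Bd cs h (N - c) := fun u hu => by have := hh u hu; omega
  intro u hu
  have := h1.mulT i u hu
  omega

theorem Bc.opw {h : W →₀ ℤ[X]} {c N : ℕ} (hh : Bc cs h c N) (ω : List B) :
    Bc cs (opw cs X ω h) c (N + 2 * ω.length) := by
  induction ω with
  | nil => simpa using hh
  | cons i ω ih =>
    rw [opw_cons, Module.End.mul_apply]
    exact (ih.mulT i).mono (by simp only [List.length_cons]; omega)

theorem Bc.shift {h : W →₀ ℤ[X]} {c N : ℕ} (hh : Bc cs h c N) (ω : List B)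
    (ha : ∀ u, h u ≠ 0 → cs.length (cs.wordProd ω * u) = ω.length + cs.length u) :
    Bc cs (Pool.Agent.Lib.MP_8e5b3d_co.opw cs X ω h) c (N + ω.length) := by
  intro v hv
  rw [opw_shift X ω ha] at hv ⊢
  have a1 := hh _ hv
  have a2 := ha _ hv
  rw [mul_inv_cancel_left] at a2
  omega

end Gen

variable {B K W W' : Type} [Group W] [Group W'] {M : CoxeterMatrix B}
  (cs : CoxeterSystem M W) (cs' : CoxeterSystem (ext M K) W')

/-- The chosen reduced word. -/
noncomputable def rw0 (u : W) : List B := (cs.exists_isReduced u).choose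

theorem rw0_red (u : W) : cs.IsReduced (rw0 cs u) := (cs.exists_isReduced u).choose_spec.1

theorem rw0_prod (u : W) : cs.wordProd (rw0 cs u) = u := (cs.exists_isReduced u).choose_spec.2.symm

theorem rw0_len (u : W) : (rw0 cs u).length = cs.length u := by
  have := (rw0_red cs u).eq
  rw [rw0_prod] at this
  exact this.symm

section Ops

variable {R : Type} [CommRing R] (φ : ℤ[X] →+* R)

/-- The operator of an element of the small Hecke algebra on the large one. -/
noncomputable def cop (P : W →₀ ℤ[X]) : Module.End R (W' →₀ R) :=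
  ∑ u ∈ P.support, φ (P u) • opw cs' (φ X) ((rw0 cs u).map .inl)

/-- The operator of a block of new generators. -/
noncomputable def blk (q : R) (b : List K) : Module.End R (W' →₀ R) :=
  (b.map fun m => 1 + mulT cs' q (.inr m)).prod

theorem blk_cons (q : R) (m : K) (b : List K) (h : W' →₀ R) :
    blk cs' q (m :: b) h = blk cs' q b h + mulT cs' q (.inr m) (blk cs' q b h) := by
  simp [blk]

theorem blk_nil (q : R) (h : W' →₀ R) : blk cs' q [] h = h := by simp [blk]

theorem cop_apply (P : W →₀ ℤ[X]) (h : W' →₀ R) :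
    cop cs cs' φ P h = ∑ u ∈ P.support, φ (P u) • opw cs' (φ X) ((rw0 cs u).map .inl) h := by
  simp [cop, LinearMap.sum_apply]

theorem supp_blk (q : R) (b : List K) {h : W' →₀ R} {η : List (B ⊕ K)} (hh : SuppIn cs' h η) :
    SuppIn cs' (blk cs' q b h) (b.map .inr ++ η) := by
  induction b with
  | nil => rw [blk_nil]; simpa using hh
  | cons m b ih =>
    rw [blk_cons]
    exact supp_add (supp_mono ih (List.sublist_cons_self _ _)) (supp_mulT q _ ih)

theorem supp_cop {x : W} {P : W →₀ ℤ[X]} (hP : IsKLColumn cs x P) {h : W' →₀ R}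
    {η : List (B ⊕ K)} (hh : SuppIn cs' h η) :
    SuppIn cs' (cop cs cs' φ P h) ((rw0 cs x).map .inl ++ η) := by
  intro v hv
  rw [cop_apply, Finsupp.finsetSum_apply] at hv
  obtain ⟨u, hu, h1⟩ := Finset.exists_ne_zero_of_sum_ne_zero hv
  have h2 : BruhatLE cs u x := by
    by_contra hn
    exact Finsupp.mem_support_iff.mp hu (hP.2.1 u hn)
  obtain ⟨ξ, h3, h4⟩ := sublist_of_bruhat cs h2 _ (rw0_prod cs x)
  obtain ⟨ζ, h5, h6, h7⟩ := exists_reduced_sublist cs ξ
  rw [opw_eq cs' (φ X) (reduced_map cs cs' (rw0_red cs u)) (reduced_map cs cs' h6) (by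
    rw [← inc_wordProd cs cs', ← inc_wordProd cs cs', rw0_prod, h7, h4]), Finsupp.smul_apply,
    smul_eq_mul] at h1
  exact supp_mono (supp_opw (φ X) (ζ.map .inl) hh)
    (((h5.trans h3).map _).append_right η) v (right_ne_zero_of_mul h1)

theorem fresh_up {m : K} {h : W' →₀ R} {η : List (B ⊕ K)} (hh : SuppIn cs' h η)
    (hm : .inr m ∉ η) (y : W') (hy : h y ≠ 0) :
    cs'.length (cs'.simple (.inr m) * y) = 1 + cs'.length y := by
  obtain ⟨a, h1, rfl⟩ := hh y hy
  rw [fresh cs' m fun h2 => hm (h1.subset h2), add_comm]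

theorem not_mem_blk {m : K} {b : List K} {η : List (B ⊕ K)} (h1 : m ∉ b) (h2 : .inr m ∉ η) :
    (.inr m : B ⊕ K) ∉ b.map .inr ++ η := by
  simp [h1, h2]

theorem lead_blk (q : R) (b : List K) (hb : b.Nodup) {h : W' →₀ R} {η : List (B ⊕ K)}
    (hh : SuppIn cs' h η) (hm : ∀ m ∈ b, .inr m ∉ η) (v : W')
    (hv : (blk cs' q b h - h) v ≠ 0) : Lead cs' v := by
  induction b with
  | nil => rw [blk_nil] at hv; simp at hv
  | cons m b ih =>
    obtain ⟨h1, h2⟩ := List.nodup_cons.mp hb
    by_cases h3 : (blk cs' q b h - h) v = 0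
    · have h4 := not_mem_blk h1 (hm m List.mem_cons_self)
      rw [blk_cons, add_sub_right_comm, Finsupp.add_apply, h3, zero_add, mulT_up q _
        fun y hy => by have := fresh_up cs' (supp_blk cs' q b hh) h4 y hy; omega] at hv
      obtain ⟨a, h5, h6⟩ := supp_blk cs' q b hh _ hv
      exact ⟨m, a, fun h7 => h4 (h5.subset h7), by rw [h6, cs'.simple_mul_simple_cancel_left]⟩
    · exact ih h2 (fun k hk => hm k (List.mem_cons_of_mem _ hk)) h3

theorem opw_inc (q : R) (ω : List B) {g : W' →₀ R} {g0 : W →₀ R}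
    (hg : ∀ u, g (inc cs cs' u) = g0 u) (u : W) :
    opw cs' q (ω.map .inl) g (inc cs cs' u) = opw cs q ω g0 u := by
  induction ω generalizing u with
  | nil => simpa using hg u
  | cons s ω ih =>
    rw [List.map_cons, opw_cons, opw_cons, Module.End.mul_apply, Module.End.mul_apply, mulT_apply,
      mulT_apply, ← inc_simple cs cs', ← map_mul, len_inc, len_inc, ih, ih]

end Ops

theorem bc_blk (b : List K) (hb : b.Nodup) {h : W' →₀ ℤ[X]} {η : List (B ⊕ K)}
    (hh : SuppIn cs' h η) (hm : ∀ m ∈ b, .inr m ∉ η) {c N : ℕ} (hc : Bc cs' h c N) :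
    Bc cs' (blk cs' X b h) c (N + b.length) := by
  induction b with
  | nil => rw [blk_nil]; simpa using hc
  | cons m b ih =>
    obtain ⟨h1, h2⟩ := List.nodup_cons.mp hb
    have h3 := ih h2 (fun k hk => hm k (List.mem_cons_of_mem _ hk))
    have h4 := not_mem_blk h1 (hm m List.mem_cons_self)
    have h5 := h3.shift [.inr m] fun y hy => by
      rw [cs'.wordProd_singleton]
      exact fresh_up cs' (supp_blk cs' X b hh) h4 y hy
    rw [opw_cons, opw_nil, mul_one] at h5
    rw [blk_cons]
    exact (h3.mono (by simp)).add (h5.mono (by simp only [List.length_cons, List.length_nil]; omega))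

theorem top_blk (b : List K) (hb : b.Nodup) {η : List (B ⊕ K)} (hη : cs'.IsReduced η)
    (hm : ∀ m ∈ b, .inr m ∉ η) :
    cs'.IsReduced (b.map .inr ++ η) ∧
    Bc cs' (blk cs' X b (Finsupp.single (cs'.wordProd η) 1) -
      Finsupp.single (cs'.wordProd (b.map .inr ++ η)) 1) 1 (η.length + b.length) := by
  induction b with
  | nil =>
    refine ⟨by simpa using hη, ?_⟩
    rw [blk_nil]
    simpa using Bc.zero _ _
  | cons m b ih =>
    obtain ⟨h1, h2⟩ := List.nodup_cons.mp hb
    have hm' := fun k hk => hm k (List.mem_cons_of_mem _ hk)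
    obtain ⟨h3, h6⟩ := ih h2 hm'
    have h4 := not_mem_blk h1 (hm m List.mem_cons_self)
    have h7 := fresh cs' m h4
    refine ⟨?_, ?_⟩
    · unfold CoxeterSystem.IsReduced
      rw [List.map_cons, List.cons_append, cs'.wordProd_cons, h7, h3.eq, List.length_cons]
    have hs := supp_sub (supp_blk cs' (X : ℤ[X]) b (supp_single η)) (supp_single (b.map .inr ++ η))
    have h5 := h6.shift [.inr m] fun y hy => by
      rw [cs'.wordProd_singleton]
      exact fresh_up cs' hs h4 y hy
    rw [opw_cons, opw_nil, mul_one, map_sub, mulT_single, if_pos (by omega)] at h5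
    have h8 := bc_blk cs' b h2 (supp_single η) hm' (Bc.single (cs'.wordProd η))
    rw [hη.eq] at h8
    rw [blk_cons, add_sub_assoc, List.map_cons, List.cons_append, cs'.wordProd_cons]
    exact (h8.mono (by simp only [List.length_cons]; omega)).add
      (h5.mono (by simp only [List.length_cons, List.length_nil]; omega))

theorem kl_deg {x : W} {P : W →₀ ℤ[X]} (hP : IsKLColumn cs x P) {u : W} (hu : u ∈ P.support) :
    (u ≠ x → 2 * (P u).natDegree + cs.length u + 1 ≤ cs.length x) ∧
      2 * (P u).natDegree + cs.length u ≤ cs.length x := by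
  have h2 : BruhatLE cs u x := by
    by_contra hn
    exact Finsupp.mem_support_iff.mp hu (hP.2.1 u hn)
  refine ⟨hP.2.2.1 u h2, ?_⟩
  by_cases h : u = x
  · rw [h, hP.1]; simp
  · have := hP.2.2.1 u h2 h
    omega

theorem bc_cop {x : W} {P : W →₀ ℤ[X]} (hP : IsKLColumn cs x P) {h : W' →₀ ℤ[X]} {c N : ℕ}
    (hc : Bc cs' h c N) : Bc cs' (cop cs cs' (RingHom.id _) P h) c (N + 2 * cs.length x) := by
  rw [cop_apply]
  refine Bc.sum _ _ fun u hu => (((hc.opw _).smul _).mono ?_)
  have := (kl_deg cs hP hu).2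
  simp only [List.length_map, rw0_len, RingHom.id_apply]
  omega

theorem bc_term (u : W) (p : ℤ[X]) {h : W' →₀ ℤ[X]} {c N : ℕ} (hc : Bc cs' h c N)
    (hl : ∀ v, h v ≠ 0 → Lead cs' v) :
    Bc cs' (p • opw cs' X ((rw0 cs u).map .inl) h) c (N + cs.length u + 2 * p.natDegree) := by
  have := (hc.shift ((rw0 cs u).map .inl) fun v hv => by
    rw [← inc_wordProd cs cs', rw0_prod, len_lead cs cs' u (hl v hv), List.length_map,
      rw0_len]).smul p
  rwa [List.length_map, rw0_len] at this

theorem bc_cop_lead {x : W} {P : W →₀ ℤ[X]} (hP : IsKLColumn cs x P) {h : W' →₀ ℤ[X]} {c N : ℕ}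
    (hc : Bc cs' h c N) (hl : ∀ v, h v ≠ 0 → Lead cs' v) :
    Bc cs' (cop cs cs' (RingHom.id _) P h) c (N + cs.length x) := by
  rw [cop_apply]
  refine Bc.sum _ _ fun u hu => ((bc_term cs cs' u _ hc hl).mono ?_)
  have := (kl_deg cs hP hu).2
  simp only [RingHom.id_apply]
  omega

theorem top_cop {x : W} {P : W →₀ ℤ[X]} (hP : IsKLColumn cs x P) {η : List (B ⊕ K)}
    (hη : cs'.IsReduced η) (hl : Lead cs' (cs'.wordProd η)) :
    cs'.IsReduced ((rw0 cs x).map .inl ++ η) ∧
    Bc cs' (cop cs cs' (RingHom.id _) P (Finsupp.single (cs'.wordProd η) 1) -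
      Finsupp.single (cs'.wordProd ((rw0 cs x).map .inl ++ η)) 1) 1 (η.length + cs.length x) := by
  classical
  have h1 : cs'.IsReduced ((rw0 cs x).map .inl ++ η) := by
    unfold CoxeterSystem.IsReduced
    rw [cs'.wordProd_append, ← inc_wordProd cs cs', rw0_prod, len_lead cs cs' x hl, hη.eq]
    simp [rw0_len]
  refine ⟨h1, ?_⟩
  have hx : x ∈ P.support := by rw [Finsupp.mem_support_iff, hP.1]; exact one_ne_zero
  rw [cop_apply, ← Finset.add_sum_erase _ _ hx, RingHom.id_apply, RingHom.id_apply, hP.1, one_smul,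
    ← opw_one_of_reduced cs' X h1, opw_append, Module.End.mul_apply, opw_one_of_reduced cs' X hη,
    add_sub_cancel_left]
  refine Bc.sum _ _ fun u hu => ((bc_term cs cs' u _ (Bc.single _) fun v hv => ?_).mono ?_)
  · by_cases e : v = cs'.wordProd η
    · rwa [e]
    · exact absurd (Finsupp.single_eq_of_ne e) hv
  · have := (kl_deg cs hP (Finset.mem_of_mem_erase hu)).1 (Finset.ne_of_mem_erase hu)
    simp only [RingHom.id_apply, hη.eq]
    omega

end FS8e5b3d
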